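import Pool.Agent.MP_17e467_an.Space

/-!
# A free action of the integers without finite dynamical complexity

The group `ℤ` has finite decomposition complexity (and all its actions are amenable), but there is
a free action of `ℤ` on a compact metrizable space whose transformation groupoid does not have
finite dynamical complexity.
-/

namespace Pool.Agent.Results.MP_17e467_an.FreeIntegerAction

open Pool.Agent.MP_17e467_an Multiplicative

lemma dist_metric : IsProperLeftInvariantMetric
    (fun x y : Multiplicative ℤ => |((x.toAdd - y.toAdd : ℤ) : ℝ)|) where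
  eq_zero_iff x y := by
    rw [abs_eq_zero, Int.cast_eq_zero, sub_eq_zero]
    exact (Multiplicative.toAdd).injective.eq_iff
  symm x y := by
    rw [← abs_neg]
    push_cast
    ring_nf
  triangle x y z := by
    have h := abs_add_le ((x.toAdd : ℝ) - y.toAdd) ((y.toAdd : ℝ) - z.toAdd)
    push_cast
    have e : (x.toAdd : ℝ) - z.toAdd = ((x.toAdd : ℝ) - y.toAdd) + ((y.toAdd : ℝ) - z.toAdd) := by
      ring
    rw [e]
    exact h
  left_invariant g x y := by
    simp only [toAdd_mul]
    push_cast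
    ring_nf
  proper R := by
    have h : {x : Multiplicative ℤ | |(((1 : Multiplicative ℤ).toAdd - x.toAdd : ℤ) : ℝ)| ≤ R}
        ⊆ (Multiplicative.toAdd) ⁻¹' (Set.Icc (-⌈R⌉) ⌈R⌉) := by
      intro x hx
      simp only [toAdd_one, zero_sub, Int.cast_neg, abs_neg, Set.mem_ofPred_eq] at hx
      rw [Set.mem_preimage, Set.mem_Icc]
      have h1 := abs_le.mp hx
      have h2 := Int.le_ceil R
      constructor
      · have : (-(⌈R⌉ : ℝ)) ≤ x.toAdd := by linarith
        exact_mod_cast this
      · have : (x.toAdd : ℝ) ≤ ⌈R⌉ := by linarith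
        exact_mod_cast this
    exact ((Set.finite_Icc _ _).preimage (Multiplicative.toAdd).injective.injOn).subset h

/-- The blocks of length `L + 1`. -/
def block (L : ℕ) (k : ℤ) : Set (Multiplicative ℤ) :=
  {x | k * (L + 1) ≤ x.toAdd ∧ x.toAdd < (k + 1) * (L + 1)}

lemma fdc_int : HasFDC (Multiplicative ℤ) := by
  refine ⟨⟨_, dist_metric⟩, ?_⟩
  intro d hd 𝔇 h𝔇
  obtain ⟨hub, hdec⟩ := h𝔇
  have hd1 : ∀ a b : Multiplicative ℤ, d a b = d 1 (a⁻¹ * b) := by
    intro a b
    rw [← hd.left_invariant a 1 (a⁻¹ * b), mul_one, mul_inv_cancel_left]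
  apply hdec
  intro r hr
  obtain ⟨L, hL⟩ : ∃ L : ℕ, ∀ x : Multiplicative ℤ, d 1 x ≤ r → |x.toAdd| ≤ L := by
    have h1 : ((fun x : Multiplicative ℤ => |x.toAdd|) '' {x | d 1 x ≤ r}).Finite :=
      (hd.proper r).image _
    obtain ⟨b, hb⟩ := h1.bddAbove
    refine ⟨b.toNat, fun x hx => ?_⟩
    have h2 : |x.toAdd| ≤ b := hb ⟨x, hx, rfl⟩
    exact h2.trans (Int.self_le_toNat b)
  refine ⟨Set.range (block L), hub _ ?_, ?_⟩
  · have h1 : ((fun x : Multiplicative ℤ => d 1 x) ''
        ((Multiplicative.toAdd) ⁻¹' (Set.Icc (-(L : ℤ)) L))).Finite :=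
      ((Set.finite_Icc _ _).preimage (Multiplicative.toAdd).injective.injOn).image _
    obtain ⟨R, hR⟩ := h1.bddAbove
    refine ⟨R, ?_⟩
    rintro Z ⟨k, rfl⟩ x hx y hy
    rw [hd1]
    apply hR
    refine ⟨x⁻¹ * y, ?_, rfl⟩
    obtain ⟨hx1, hx2⟩ := hx
    obtain ⟨hy1, hy2⟩ := hy
    rw [Set.mem_preimage, Set.mem_Icc, toAdd_mul, toAdd_inv]
    have e : (k + 1) * ((L : ℤ) + 1) = k * (L + 1) + (L + 1) := by ring
    rw [e] at hx2 hy2
    constructor <;> omega
  · intro Z hZ
    rw [Set.mem_singleton_iff] at hZ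
    subst hZ
    have hfar : ∀ S : Set ℤ, (∀ k ∈ S, ∀ k' ∈ S, k < k' → k + 2 ≤ k') →
        PairwiseFar d r (block L '' S) := by
      intro S hS A hA B hB hAB a ha b hb
      obtain ⟨k, hk, rfl⟩ := hA
      obtain ⟨k', hk', rfl⟩ := hB
      have hne : k ≠ k' := fun h => hAB (by rw [h])
      obtain ⟨ha1, ha2⟩ := ha
      obtain ⟨hb1, hb2⟩ := hb
      by_contra hcon
      push Not at hcon
      rw [hd1] at hcon
      have h1 := hL _ hcon
      rw [toAdd_mul, toAdd_inv, abs_le] at h1
      have hpos : (0 : ℤ) < (L : ℤ) + 1 := by omega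
      rcases lt_or_gt_of_ne hne with h | h
      · have h2 := hS k hk k' hk' h
        have h3 : (k + 2) * ((L : ℤ) + 1) ≤ k' * (L + 1) := mul_le_mul_of_nonneg_right h2 hpos.le
        have e : (k + 2) * ((L : ℤ) + 1) = (k + 1) * (L + 1) + (L + 1) := by ring
        omega
      · have h2 := hS k' hk' k hk h
        have h3 : (k' + 2) * ((L : ℤ) + 1) ≤ k * (L + 1) := mul_le_mul_of_nonneg_right h2 hpos.le
        have e : (k' + 2) * ((L : ℤ) + 1) = (k' + 1) * (L + 1) + (L + 1) := by ring
        omega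
    refine ⟨block L '' {k | Even k}, block L '' {k | Odd k}, Set.image_subset_range _ _,
      Set.image_subset_range _ _, ?_, ?_, ?_⟩
    · symm
      rw [Set.eq_univ_iff_forall]
      intro x
      set k := x.toAdd / ((L : ℤ) + 1) with hk
      have hpos : (0 : ℤ) < (L : ℤ) + 1 := by omega
      have hmem : x ∈ block L k := by
        refine ⟨Int.ediv_mul_le _ hpos.ne', ?_⟩
        exact Int.lt_ediv_add_one_mul_self _ hpos
      rcases Int.even_or_odd k with h | h
      · exact Or.inl ⟨_, ⟨k, h, rfl⟩, hmem⟩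
      · exact Or.inr ⟨_, ⟨k, h, rfl⟩, hmem⟩
    · apply hfar
      intro k hk k' hk' hlt
      obtain ⟨a, ha⟩ := hk
      obtain ⟨b, hb⟩ := hk'
      omega
    · apply hfar
      intro k hk k' hk' hlt
      obtain ⟨a, ha⟩ := hk
      obtain ⟨b, hb⟩ := hk'
      omega

lemma amenable_int (X : Type*) [TopologicalSpace X] [MulAction (Multiplicative ℤ) X] :
    AmenableAction (Multiplicative ℤ) X := by
  intro F C _ ε hε
  obtain ⟨B, hB⟩ : ∃ B : ℕ, ∀ γ ∈ F, |γ.toAdd| ≤ B := by
    refine ⟨F.sup (fun γ => γ.toAdd.natAbs), fun γ hγ => ?_⟩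
    have h1 : γ.toAdd.natAbs ≤ F.sup (fun γ => γ.toAdd.natAbs) :=
      Finset.le_sup (f := fun γ : Multiplicative ℤ => γ.toAdd.natAbs) hγ
    rw [Int.abs_eq_natAbs]
    exact_mod_cast h1
  obtain ⟨N, hN⟩ := exists_nat_gt (4 * (B : ℝ) / ε + 1)
  have hNpos : (0 : ℝ) < N := lt_trans (by positivity) hN
  have hN0 : 0 < N := by exact_mod_cast hNpos
  let u : ℤ → ℝ := fun n => if 0 ≤ n ∧ n < N then 1 / (N : ℝ) else 0
  have hu0 : ∀ n, 0 ≤ u n := by
    intro n
    simp only [u]
    split_ifs
    · positivity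
    · exact le_rfl
  have hu1 : ∀ n, u n ≤ 1 / N := by
    intro n
    simp only [u]
    split_ifs
    · exact le_rfl
    · positivity
  refine ⟨fun _ δ => u δ.toAdd, fun δ => continuous_const, fun _ δ => hu0 _, fun _ => ?_, ?_⟩
  · rw [← (Multiplicative.ofAdd (α := ℤ)).hasSum_iff]
    have h1 : ∑ n ∈ Finset.Ico (0 : ℤ) N, u n = 1 := by
      have h2 : ∀ n ∈ Finset.Ico (0 : ℤ) N, u n = 1 / (N : ℝ) := by
        intro n hn
        rw [Finset.mem_Ico] at hn
        simp only [u]
        rw [if_pos hn]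
      rw [Finset.sum_congr rfl h2, Finset.sum_const, Int.card_Ico]
      simp only [sub_zero, Int.toNat_natCast, nsmul_eq_mul]
      field_simp
    rw [← h1]
    apply hasSum_sum_of_ne_finset_zero
    intro n hn
    rw [Finset.mem_Ico] at hn
    simp only [Function.comp, toAdd_ofAdd, u]
    rw [if_neg hn]
  · intro γ hγ x _
    set c : ℤ := γ.toAdd with hc
    have hcB : |c| ≤ B := hB γ hγ
    set h : ℤ → ℝ := fun n => |u n - u (-c + n)| with hh
    have heq : (fun δ : Multiplicative ℤ => |u δ.toAdd - u (γ⁻¹ * δ).toAdd|) ∘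
        (Multiplicative.ofAdd (α := ℤ)) = h := by
      funext n
      simp only [Function.comp, toAdd_ofAdd, toAdd_mul, toAdd_inv, hh, hc]
    set T : Finset ℤ := Finset.Ico (-|c|) |c| ∪ Finset.Ico (N - |c|) (N + |c|) with hT
    have hzero : ∀ n, n ∉ T → h n = 0 := by
      intro n hn
      simp only [hT, Finset.mem_union, Finset.mem_Ico, not_or, not_and, not_lt] at hn
      obtain ⟨hn1, hn2⟩ := hn
      have h1 : (0 ≤ n ∧ n < N) ↔ (0 ≤ -c + n ∧ -c + n < N) := by
        rcases abs_cases c with ⟨h3, h4⟩ | ⟨h3, h4⟩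
        · rw [h3] at hn1 hn2
          constructor
          · rintro ⟨h5, h6⟩
            constructor <;> omega
          · rintro ⟨h5, h6⟩
            constructor <;> omega
        · rw [h3] at hn1 hn2
          constructor
          · rintro ⟨h5, h6⟩
            constructor <;> omega
          · rintro ⟨h5, h6⟩
            constructor <;> omega
      simp only [hh, u]
      by_cases h2 : 0 ≤ n ∧ n < N
      · rw [if_pos h2, if_pos (h1.mp h2), sub_self, abs_zero]
      · rw [if_neg h2, if_neg (fun h3 => h2 (h1.mpr h3)), sub_self, abs_zero]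
    have hsum : HasSum h (∑ n ∈ T, h n) := hasSum_sum_of_ne_finset_zero (fun n hn => hzero n hn)
    have hsum' : HasSum (fun δ : Multiplicative ℤ => |u δ.toAdd - u (γ⁻¹ * δ).toAdd|)
        (∑ n ∈ T, h n) := by
      rw [← (Multiplicative.ofAdd (α := ℤ)).hasSum_iff, heq]
      exact hsum
    refine ⟨hsum'.summable, ?_⟩
    rw [hsum'.tsum_eq]
    have hle : ∀ n ∈ T, h n ≤ 1 / N := by
      intro n _
      simp only [hh]
      rw [abs_le]
      constructor
      · linarith [hu0 n, hu1 (-c + n)]
      · linarith [hu1 n, hu0 (-c + n)]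
    have h1 := Finset.sum_le_card_nsmul T h (1 / N) hle
    have hcard : (T.card : ℝ) ≤ 4 * B := by
      have h2 : T.card ≤ (Finset.Ico (-|c|) |c|).card
          + (Finset.Ico ((N : ℤ) - |c|) (N + |c|)).card := Finset.card_union_le _ _
      rw [Int.card_Ico, Int.card_Ico] at h2
      have h3 : T.card ≤ 4 * B := by omega
      exact_mod_cast h3
    refine h1.trans ?_
    rw [nsmul_eq_mul, mul_one_div, div_le_iff₀ hNpos]
    have h4 : 4 * (B : ℝ) / ε < N := by linarith
    rw [div_lt_iff₀ hε] at h4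
    linarith

/-- The group `ℤ` has finite decomposition complexity, and it has a free amenable action on a
compact metrizable space whose transformation groupoid does not have finite dynamical
complexity. -/
theorem result : HasFDC (Multiplicative ℤ) ∧
    ∃ (X : Type) (_ : TopologicalSpace X) (_ : CompactSpace X)
      (_ : TopologicalSpace.MetrizableSpace X) (_ : MulAction (Multiplicative ℤ) X)
      (_ : ContinuousConstSMul (Multiplicative ℤ) X),
      FreeAction (Multiplicative ℤ) X ∧ AmenableAction (Multiplicative ℤ) X ∧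
        ¬ HasFiniteDynamicalComplexity (Multiplicative ℤ) X := by
  refine ⟨fdc_int, XX, inferInstance, inferInstance, inferInstance, inferInstance, inferInstance,
    free_XX, amenable_int XX, not_fdc⟩

end Pool.Agent.Results.MP_17e467_an.FreeIntegerAction
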